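import Pool.Agent.H38.Had.Red

/-!
Hadamard decomposition is hard for the existential theory of the reals, already for `k₁ = 2`.
-/

namespace Pool.Agent.Results.MP_c79a71_lc.Hard

open Pool.Agent.H38.NP Pool.Agent.H38.ER Pool.Agent.H38.Had

theorem result : ERHardOn (fun p => Inst p ∧ p.2.2.2.1.val = 2) HasHD := hd_erh.hardOn

end Pool.Agent.Results.MP_c79a71_lc.Hard
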